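import Pool.Agent.Helper41.LF.GoalsA

/-! # LF packet NDC: the nondivergence induction -/

set_option autoImplicit false

open MeasureTheory Finset

namespace Pool.Agent.Helper75.LF

open Pool.Agent.Helper41.LF

/-- the stopping rule on dyadic subintervals -/
def Stop (low : ℝ → ℝ → Prop) : ℕ → ℝ → ℝ → ℝ → Prop
  | 0, p, q, x => x ∈ Set.Icc p q ∧ low p q
  | k + 1, p, q, x => (x ∈ Set.Icc p q ∧ low p q) ∨ Stop low k p ((p + q) / 2) x ∨
      Stop low k ((p + q) / 2) q x

section
variable {low : ℝ → ℝ → Prop}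

lemma stop_mem (k : ℕ) : ∀ p q x : ℝ, p ≤ q → Stop low k p q x → x ∈ Set.Icc p q := by
  induction k with
  | zero => intro p q x _ h; exact h.1
  | succ k ih =>
    intro p q x hpq h
    rcases h with h | h | h
    · exact h.1
    · have := ih p ((p + q) / 2) x (by linarith) h
      exact ⟨this.1, this.2.trans (by linarith)⟩
    · have := ih ((p + q) / 2) q x (by linarith) h
      exact ⟨le_trans (by linarith) this.1, this.2⟩

lemma stop_mono (k : ℕ) : ∀ p q x : ℝ, Stop low k p q x → Stop low (k + 1) p q x := by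
  induction k with
  | zero => intro p q x h; exact Or.inl h
  | succ k ih =>
    intro p q x h
    rcases h with h | h | h
    · exact Or.inl h
    · exact Or.inr (Or.inl (ih _ _ _ h))
    · exact Or.inr (Or.inr (ih _ _ _ h))

lemma stop_small {x r : ℝ} (hl : ∀ p q : ℝ, x ∈ Set.Icc p q → q - p < r → low p q) (k : ℕ) :
    ∀ p q : ℝ, x ∈ Set.Icc p q → (q - p) / 2 ^ k < r → Stop low k p q x := by
  induction k with
  | zero =>
    intro p q hx h
    exact ⟨hx, hl p q hx (by simpa using h)⟩
  | succ k ih =>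
    intro p q hx h
    have e1 : ((p + q) / 2 - p) / 2 ^ k = (q - p) / 2 ^ (k + 1) := by
      rw [pow_succ]; field_simp; ring
    have e2 : (q - (p + q) / 2) / 2 ^ k = (q - p) / 2 ^ (k + 1) := by
      rw [pow_succ]; field_simp; ring
    rcases le_total x ((p + q) / 2) with h1 | h1
    · exact Or.inr (Or.inl (ih p ((p + q) / 2) ⟨hx.1, h1⟩ (by rw [e1]; exact h)))
    · exact Or.inr (Or.inr (ih ((p + q) / 2) q ⟨h1, hx.2⟩ (by rw [e2]; exact h)))

lemma stop_measure (E : Set ℝ) {c : ℝ} (hc : 0 ≤ c)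
    (h1 : ∀ p q : ℝ, p < q → ¬ low p q → (low p ((p + q) / 2) ∨ low ((p + q) / 2) q) →
      volume (E ∩ Set.Icc p q) ≤ ENNReal.ofReal (c * (q - p))) (k : ℕ) :
    ∀ p q : ℝ, p < q → ¬ low p q →
      volume (E ∩ {x | Stop low k p q x}) ≤ ENNReal.ofReal (2 * c * (q - p)) := by
  induction k with
  | zero =>
    intro p q hpq hn
    have : E ∩ {x | Stop low 0 p q x} = ∅ := by
      ext x
      simp only [Set.mem_inter_iff, Set.mem_ofPred_eq, Set.mem_empty_iff_false, iff_false]
      rintro ⟨-, h⟩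
      exact hn h.2
    rw [this, measure_empty]; exact bot_le
  | succ k ih =>
    intro p q hpq hn
    set m := (p + q) / 2 with hm
    have hpm : p < m := by rw [hm]; linarith
    have hmq : m < q := by rw [hm]; linarith
    have key : ∀ p' q' : ℝ, p' < q' → p ≤ p' → q' ≤ q → q' - p' = (q - p) / 2 →
        (low p' q' → (low p ((p + q) / 2) ∨ low ((p + q) / 2) q)) →
        volume (E ∩ {x | Stop low k p' q' x}) ≤ ENNReal.ofReal (c * (q - p)) := by
      intro p' q' h' hp hq hd hlow
      by_cases hl : low p' q'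
      · refine (measure_mono ?_).trans (h1 p q hpq hn (hlow hl))
        rintro x ⟨hxE, hx⟩
        have := stop_mem k p' q' x h'.le hx
        exact ⟨hxE, hp.trans this.1, this.2.trans hq⟩
      · refine (ih p' q' h' hl).trans (le_of_eq ?_)
        rw [hd]; congr 1; ring
    have hsub : E ∩ {x | Stop low (k + 1) p q x} ⊆
        (E ∩ {x | Stop low k p m x}) ∪ (E ∩ {x | Stop low k m q x}) := by
      rintro x ⟨hxE, hx⟩
      rcases hx with h | h | h
      · exact absurd h.2 hn
      · exact Or.inl ⟨hxE, h⟩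
      · exact Or.inr ⟨hxE, h⟩
    refine (measure_mono hsub).trans ((measure_union_le _ _).trans ?_)
    have a1 := key p m hpm le_rfl hmq.le (by rw [hm]; ring) Or.inl
    have a2 := key m q hmq hpm.le le_rfl (by rw [hm]; ring) Or.inr
    refine (add_le_add a1 a2).trans (le_of_eq ?_)
    have hnn : 0 ≤ c * (q - p) := mul_nonneg hc (by linarith)
    rw [← ENNReal.ofReal_add hnn hnn]
    congr 1; ring

end

open Classical in
theorem thm_NDC : S_NDC := by
  intro α _ ψ ε G δ hδ hcont hgood hgrow l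
  induction l with
  | zero =>
    intro T hT u v huv hbig
    have hTe : T = ∅ := by
      rw [Finset.eq_empty_iff_forall_notMem]
      intro s hs
      have := hT {s} (by simpa using hs) (by simp)
      simp at this
    have : {x : ℝ | x ∈ Set.Icc u v ∧ ¬ Marked T ψ ε G x} = ∅ := by
      ext x
      simp only [Set.mem_ofPred_eq, Set.mem_empty_iff_false, iff_false]
      rintro ⟨-, h⟩
      refine h ⟨∅, by simp, by simp, by simp, ?_⟩
      intro s hs
      rw [hTe] at hs
      simp at hs
    rw [this, measure_empty]; exact bot_le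
  | succ l ih =>
    intro T hT u v huv hbig
    set E : Set ℝ := {x | ¬ Marked T ψ ε G x} with hE
    set low : ℝ → ℝ → Prop := fun p q => ∃ s ∈ T, ∀ y ∈ Set.Icc p q, ψ s y < 1 with hlow
    have hnl : ∀ p q : ℝ, ¬ low p q → ∀ s ∈ T, ∃ y ∈ Set.Icc p q, 1 ≤ ψ s y := by
      intro p q hn s hs
      by_contra hc
      push Not at hc
      exact hn ⟨s, hs, hc⟩
    have h1 : ∀ p q : ℝ, p < q → ¬ low p q → (low p ((p + q) / 2) ∨ low ((p + q) / 2) q) →
        volume (E ∩ Set.Icc p q) ≤ ENNReal.ofReal (((2 ^ (l + 1) - 2 + 1) * δ) * (q - p)) := by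
      intro p q hpq hn hh
      have hG : ∃ s0 ∈ T, ∀ y ∈ Set.Icc p q, ψ s0 y ≤ G := by
        rcases hh with ⟨s0, hs0, h⟩ | ⟨s0, hs0, h⟩
        · exact ⟨s0, hs0, hgrow s0 p q p ((p + q) / 2) hpq le_rfl (by linarith) (by ring) h⟩
        · exact ⟨s0, hs0, hgrow s0 p q ((p + q) / 2) q hpq (by linarith) le_rfl (by ring) h⟩
      obtain ⟨s0, hs0, hG⟩ := hG
      set T' : Finset α := T.filter (fun s => s ≠ s0 ∧ (s ≤ s0 ∨ s0 ≤ s)) with hT'
      have hT'm : ∀ s, s ∈ T' ↔ s ∈ T ∧ s ≠ s0 ∧ (s ≤ s0 ∨ s0 ≤ s) := by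
        intro s; rw [hT', Finset.mem_filter]
      have hins : ∀ F : Finset α, F ⊆ T' → IsChain (· ≤ ·) (F : Set α) →
          IsChain (· ≤ ·) ((insert s0 F : Finset α) : Set α) := by
        intro F hF hch
        rw [Finset.coe_insert]
        refine hch.insert ?_
        intro b hb _
        have := (hT'm b).1 (hF hb)
        exact this.2.2.symm
      have hch' : ∀ F : Finset α, F ⊆ T' → IsChain (· ≤ ·) (F : Set α) → F.card ≤ l := by
        intro F hF hch
        have h2 : s0 ∉ F := fun h => ((hT'm s0).1 (hF h)).2.1 rfl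
        have h3 := hT (insert s0 F) ?_ (hins F hF hch)
        · rw [Finset.card_insert_of_notMem h2] at h3; omega
        · intro s hs
          rcases Finset.mem_insert.1 hs with rfl | hs
          · exact hs0
          · exact ((hT'm s).1 (hF hs)).1
      have hmeas := ih T' hch' p q hpq (fun s hs => hnl p q hn s ((hT'm s).1 hs).1)
      have hm2 := hgood s0 p q hpq (hnl p q hn s0 hs0)
      have hsub : E ∩ Set.Icc p q ⊆ {x : ℝ | x ∈ Set.Icc p q ∧ ¬ Marked T' ψ ε G x} ∪
          {x : ℝ | x ∈ Set.Icc p q ∧ ψ s0 x < ε} := by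
        rintro x ⟨hxE, hx⟩
        by_contra hc
        simp only [Set.mem_union, Set.mem_ofPred_eq, not_or, not_and, not_not, not_lt] at hc
        obtain ⟨F', hF', hch, hval, hmax⟩ := hc.1 hx
        have he := hc.2 hx
        refine hxE ⟨insert s0 F', ?_, hins F' hF' hch, ?_, ?_⟩
        · intro s hs
          rcases Finset.mem_insert.1 hs with rfl | hs
          · exact hs0
          · exact ((hT'm s).1 (hF' hs)).1
        · intro s hs
          rcases Finset.mem_insert.1 hs with rfl | hs
          · exact ⟨he, hG x hx⟩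
          · exact hval s hs
        · intro s hs hsF hcomp
          have hne : s ≠ s0 := fun h => hsF (by rw [h]; exact Finset.mem_insert_self _ _)
          refine hmax s ((hT'm s).2 ⟨hs, hne, hcomp s0 (Finset.mem_insert_self _ _)⟩)
            (fun h => hsF (Finset.mem_insert_of_mem h)) ?_
          intro t ht
          exact hcomp t (Finset.mem_insert_of_mem ht)
      refine (measure_mono hsub).trans ((measure_union_le _ _).trans ?_)
      refine (add_le_add hmeas hm2).trans (le_of_eq ?_)
      have h2 : (2 : ℝ) ≤ 2 ^ (l + 1) := by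
        have : (1 : ℝ) ≤ 2 ^ l := one_le_pow₀ (by norm_num)
        rw [pow_succ]; linarith
      have hq : 0 ≤ q - p := by linarith
      have hnn : (0 : ℝ) ≤ (2 ^ (l + 1) - 2) * δ * (q - p) :=
        mul_nonneg (mul_nonneg (by linarith) hδ) hq
      rw [← ENNReal.ofReal_add hnn (mul_nonneg hδ hq)]
      congr 1; ring
    have hnuv : ¬ low u v := by
      rintro ⟨s, hs, h⟩
      obtain ⟨y, hy, h'⟩ := hbig s hs
      exact absurd (h y hy) (not_lt.2 h')
    have h2 : (2 : ℝ) ≤ 2 ^ (l + 1) := by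
      have : (1 : ℝ) ≤ 2 ^ l := one_le_pow₀ (by norm_num)
      rw [pow_succ]; linarith
    have hc0 : (0 : ℝ) ≤ (2 ^ (l + 1) - 2 + 1) * δ := mul_nonneg (by linarith) hδ
    have h3 := fun k => stop_measure (low := low) E hc0 h1 k u v huv hnuv
    have hsub : {x : ℝ | x ∈ Set.Icc u v ∧ ¬ Marked T ψ ε G x} ⊆
        ⋃ k : ℕ, E ∩ {x | Stop low k u v x} := by
      rintro x ⟨hx, hxE⟩
      have : ∃ s ∈ T, ψ s x < 1 := by
        by_contra hc
        push Not at hc
        exact hxE ⟨∅, by simp, by simp, by simp, fun s hs _ _ => hc s hs⟩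
      obtain ⟨s, hs, hsx⟩ := this
      have hev : ∀ᶠ y in nhds x, ψ s y < 1 := (hcont s).continuousAt.eventually_lt
        continuousAt_const hsx
      obtain ⟨r, hr, hball⟩ := Metric.eventually_nhds_iff.1 hev
      obtain ⟨k, hk⟩ : ∃ k : ℕ, (v - u) / 2 ^ k < r := by
        obtain ⟨k, hk⟩ := pow_unbounded_of_one_lt ((v - u) / r) (by norm_num : (1 : ℝ) < 2)
        refine ⟨k, ?_⟩
        rw [div_lt_iff₀ hr] at hk
        rw [div_lt_iff₀ (by positivity)]
        linarith
      refine Set.mem_iUnion.2 ⟨k, hxE, ?_⟩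
      refine stop_small (low := low) (r := r) ?_ k u v hx hk
      intro p q hpq hd
      refine ⟨s, hs, fun y hy => hball ?_⟩
      rw [Real.dist_eq, abs_lt]
      constructor
      · linarith [hpq.1, hpq.2, hy.1, hy.2]
      · linarith [hpq.1, hpq.2, hy.1, hy.2]
    refine (measure_mono hsub).trans ?_
    have hmono : Monotone fun k : ℕ => E ∩ {x | Stop low k u v x} := by
      refine monotone_nat_of_le_succ fun k x hx => ⟨hx.1, stop_mono k u v x hx.2⟩
    rw [hmono.measure_iUnion]
    refine iSup_le fun k => (h3 k).trans (le_of_eq ?_)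
    congr 1
    rw [pow_succ (2 : ℝ) (l + 1)]; ring

end Pool.Agent.Helper75.LF

theorem Pool.Agent.Helper41.LF.thm_NDC : Pool.Agent.Helper41.LF.S_NDC :=
  Pool.Agent.Helper75.LF.thm_NDC
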